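import Mathlib
import Pool.Agent.NPC.Dec

set_option autoImplicit false

/-!
# The problem COL-2PM: definitions
-/

namespace Pool.Agent.K3h14.CM

/-- Instances: the list of the vertices of the first side, the list of the vertices of the second
side (the two sides are disjoint copies of sets of numbers), and the list of the edges with their
colours; an edge is a pair `(u, v)` with `u` in the first and `v` in the second side, the colour
`1` is written `true` and the colour `2` is written `false`. -/
abbrev Inst : Type := (List ℕ × List ℕ) × List ((ℕ × ℕ) × Bool)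

namespace Inst

/-- The vertices of the first side. -/
abbrev U (I : Inst) : List ℕ := I.1.1
/-- The vertices of the second side. -/
abbrev V (I : Inst) : List ℕ := I.1.2
/-- The edges with their colours. -/
abbrev E (I : Inst) : List ((ℕ × ℕ) × Bool) := I.2

/-- The data describe a finite simple bipartite graph with a colour `c(e)` for every edge `e`. -/
def Valid (I : Inst) : Prop :=
  I.U.Nodup ∧ I.V.Nodup ∧ (I.E.map Prod.fst).Nodup ∧ ∀ e ∈ I.E, e.1.1 ∈ I.U ∧ e.1.2 ∈ I.V

end Inst

/-- `M` is a perfect matching: a set of edges covering every vertex exactly once. -/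
def PerfectMatching (I : Inst) (M : Set (ℕ × ℕ)) : Prop :=
  (∀ e ∈ M, ∃ c : Bool, (e, c) ∈ I.E) ∧ (∀ u ∈ I.U, ∃! e, e ∈ M ∧ e.1 = u) ∧
    ∀ v ∈ I.V, ∃! e, e ∈ M ∧ e.2 = v

/-- The decision problem COL-2PM: there are two perfect matchings without common edge, all the edges
of the first one having colour `1`. -/
def COL2PM (I : Inst) : Prop :=
  I.Valid ∧ ∃ M₁ M₂ : Set (ℕ × ℕ), PerfectMatching I M₁ ∧ PerfectMatching I M₂ ∧
    Disjoint M₁ M₂ ∧ ∀ e ∈ M₁, (e, true) ∈ I.E

end Pool.Agent.K3h14.CM
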