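import Mathlib
import Pool.Agent.NPC.Sat2
import Pool.Agent.Y592.OP.Red
import Pool.Agent.K3h14.CM.Defs

set_option autoImplicit false

/-!
# COL-2PM: the reduction from 3SAT
-/

namespace Pool.Agent.K3h14.CM

open Pool.Agent.NPC
open Pool.Agent.Y592.OP (F3 M lit)

/-- The number of tokens (variable, occurrence of a literal). -/
def N (φ : F3) : ℕ := M φ * M φ

/-- The next token in the cycle of the variable. -/
def nxt (m i : ℕ) : ℕ := if (i + 1) % m = 0 then i + 1 - m else i + 1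

/-- The previous token in the cycle of the variable. -/
def prv (m i : ℕ) : ℕ := if i % m = 0 then i + m - 1 else i - 1

/-- The type of the token: `1` if the occurrence is the variable, `2` if it is its negation, `0` if it
is another variable. -/
def ty (φ : F3) (i : ℕ) : ℕ :=
  if (lit φ (i % M φ)).2 = i / M φ then (if (lit φ (i % M φ)).1 = true then 1 else 2) else 0

/-- The clause of the token. -/
def cl (φ : F3) (i : ℕ) : ℕ := (i % M φ) / 3

/-- The vertices, on both sides. -/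
def InU (φ : F3) (n : ℕ) : Prop :=
  n < 4 * N φ + 2 * φ.length ∧ ¬ (n < 4 * N φ ∧ n % 4 = 3 ∧ ty φ (n / 4) ≠ 0)

/-- The edges of colour `1`. -/
def Red (φ : F3) (u v : ℕ) : Prop :=
  (u < 4 * N φ ∧ v < 4 * N φ ∧ ((u / 4 = v / 4 ∧ (u % 4 = v % 4 ∨ (u % 4 = 1 ∧ v % 4 = 0))) ∨
    (u % 4 = 0 ∧ v % 4 = 1 ∧ u / 4 = nxt (M φ) (v / 4)))) ∨ (4 * N φ ≤ u ∧ u = v)

/-- The edges of colour `2`. -/
def Blue (φ : F3) (u v : ℕ) : Prop :=
  (u < 4 * N φ ∧ v < 4 * N φ ∧ u / 4 = v / 4 ∧ ((u % 4 = 2 ∧ v % 4 = 1) ∨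
    (ty φ (u / 4) = 2 ∧ u % 4 = 0 ∧ v % 4 = 2) ∨ (ty φ (u / 4) ≠ 2 ∧ u % 4 = 1 ∧ v % 4 = 2) ∨
    (u % 4 = 0 ∧ v % 4 = 3) ∨ (u % 4 = 3 ∧ v % 4 = 0))) ∨
  (u < 4 * N φ ∧ 4 * N φ ≤ v ∧ cl φ (u / 4) = (v - 4 * N φ) / 2 ∧
    ((ty φ (u / 4) = 1 ∧ u % 4 = 0) ∨ (ty φ (u / 4) = 2 ∧ u % 4 = 1))) ∨
  (4 * N φ ≤ u ∧ v < 4 * N φ ∧ cl φ (v / 4) = (u - 4 * N φ) / 2 ∧ ty φ (v / 4) ≠ 0 ∧ v % 4 = 0)

instance (φ : F3) (n : ℕ) : Decidable (InU φ n) := by unfold InU; infer_instance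
instance (φ : F3) (u v : ℕ) : Decidable (Red φ u v) := by unfold Red; infer_instance
instance (φ : F3) (u v : ℕ) : Decidable (Blue φ u v) := by unfold Blue; infer_instance

/-- The list of the vertices. -/
def vert (φ : F3) : List ℕ := (List.range (4 * N φ + 2 * φ.length)).filter (fun n => decide (InU φ n))

/-- The list of the edges. -/
def edges (φ : F3) : List ((ℕ × ℕ) × Bool) :=
  (((vert φ ×ˢ vert φ)).filter (fun p => decide (Red φ p.1 p.2))).map (fun p => (p, true)) ++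
  (((vert φ ×ˢ vert φ)).filter (fun p => decide (Blue φ p.1 p.2))).map (fun p => (p, false))

/-- The reduction. -/
def red (φ : F3) : Inst := ((vert φ, vert φ), edges φ)

theorem mem_vert {φ : F3} {n : ℕ} : n ∈ vert φ ↔ InU φ n := by
  unfold vert
  rw [List.mem_filter, List.mem_range, decide_eq_true_eq]
  exact ⟨fun h => h.2, fun h => ⟨h.1, h⟩⟩

theorem mem_edges {φ : F3} {u v : ℕ} {c : Bool} : ((u, v), c) ∈ edges φ ↔
    InU φ u ∧ InU φ v ∧ ((c = true ∧ Red φ u v) ∨ (c = false ∧ Blue φ u v)) := by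
  unfold edges
  rw [List.mem_append, List.mem_map, List.mem_map]
  constructor
  · rintro (⟨⟨u', v'⟩, h, h'⟩ | ⟨⟨u', v'⟩, h, h'⟩) <;>
    · rw [List.mem_filter, List.mem_product, mem_vert, mem_vert, decide_eq_true_eq] at h
      simp only [Prod.mk.injEq] at h'
      obtain ⟨⟨rfl, rfl⟩, rfl⟩ := h'
      simp only at h
      refine ⟨h.1.1, h.1.2, ?_⟩
      simp [h.2]
  · rintro ⟨h1, h2, ⟨rfl, h3⟩ | ⟨rfl, h3⟩⟩
    · left
      refine ⟨(u, v), ?_, rfl⟩
      rw [List.mem_filter, List.mem_product, mem_vert, mem_vert, decide_eq_true_eq]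
      exact ⟨⟨h1, h2⟩, h3⟩
    · right
      refine ⟨(u, v), ?_, rfl⟩
      rw [List.mem_filter, List.mem_product, mem_vert, mem_vert, decide_eq_true_eq]
      exact ⟨⟨h1, h2⟩, h3⟩

theorem red_blue {φ : F3} {u v : ℕ} (h : Red φ u v) (h' : Blue φ u v) : False := by
  unfold Red at h
  unfold Blue at h'
  omega

theorem valid_red (φ : F3) : (red φ).Valid := by
  have hn : (vert φ).Nodup := List.nodup_range.filter _
  have hn2 : (vert φ ×ˢ vert φ).Nodup := hn.product hn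
  refine ⟨hn, hn, ?_, ?_⟩
  · show ((edges φ).map Prod.fst).Nodup
    unfold edges
    rw [List.map_append, List.map_map, List.map_map]
    have e1 : (Prod.fst ∘ fun p : ℕ × ℕ => (p, true)) = id := rfl
    have e2 : (Prod.fst ∘ fun p : ℕ × ℕ => (p, false)) = id := rfl
    rw [e1, e2, List.map_id, List.map_id, List.nodup_append]
    refine ⟨hn2.filter _, hn2.filter _, ?_⟩
    intro a ha b hb hab
    subst hab
    rw [List.mem_filter, decide_eq_true_eq] at ha hb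
    exact red_blue ha.2 hb.2
  · rintro ⟨⟨u, v⟩, c⟩ he
    have he' : ((u, v), c) ∈ edges φ := he
    rw [mem_edges] at he'
    exact ⟨mem_vert.2 he'.1, mem_vert.2 he'.2.1⟩

/-- Two disjoint perfect matchings `A`, `B`, the first one of colour `1`, as relations. -/
structure Two (φ : F3) (A B : ℕ → ℕ → Prop) : Prop where
  aR : ∀ u v, A u v → InU φ u ∧ InU φ v ∧ Red φ u v
  bR : ∀ u v, B u v → InU φ u ∧ InU φ v ∧ (Red φ u v ∨ Blue φ u v)
  aU : ∀ u, InU φ u → ∃ v, A u v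
  aV : ∀ v, InU φ v → ∃ u, A u v
  bU : ∀ u, InU φ u → ∃ v, B u v
  bV : ∀ v, InU φ v → ∃ u, B u v
  aU1 : ∀ u v v', A u v → A u v' → v = v'
  aV1 : ∀ u u' v, A u v → A u' v → u = u'
  bU1 : ∀ u v v', B u v → B u v' → v = v'
  bV1 : ∀ u u' v, B u v → B u' v → u = u'
  dj : ∀ u v, A u v → ¬ B u v

theorem col2pm_red {φ : F3} : COL2PM (red φ) ↔ ∃ A B : ℕ → ℕ → Prop, Two φ A B := by
  constructor
  · rintro ⟨-, M₁, M₂, h1, h2, h3, h4⟩
    have hu : ∀ (M' : Set (ℕ × ℕ)), PerfectMatching (red φ) M' → ∀ u v, (u, v) ∈ M' →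
        InU φ u ∧ InU φ v ∧ (Red φ u v ∨ Blue φ u v) := by
      intro M' hM' u v huv
      obtain ⟨c, hc⟩ := hM'.1 _ huv
      have hc' : ((u, v), c) ∈ edges φ := hc
      rw [mem_edges] at hc'
      exact ⟨hc'.1, hc'.2.1, hc'.2.2.imp (fun h => h.2) (fun h => h.2)⟩
    have exU : ∀ (M' : Set (ℕ × ℕ)), PerfectMatching (red φ) M' → ∀ u, InU φ u →
        ∃ v, (u, v) ∈ M' := by
      intro M' hM' u hu
      obtain ⟨e, ⟨he, he'⟩, -⟩ := hM'.2.1 u (mem_vert.2 hu)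
      exact ⟨e.2, by rw [← he']; exact he⟩
    have exV : ∀ (M' : Set (ℕ × ℕ)), PerfectMatching (red φ) M' → ∀ v, InU φ v →
        ∃ u, (u, v) ∈ M' := by
      intro M' hM' u hu
      obtain ⟨e, ⟨he, he'⟩, -⟩ := hM'.2.2 u (mem_vert.2 hu)
      exact ⟨e.1, by rw [← he']; exact he⟩
    have uqU : ∀ (M' : Set (ℕ × ℕ)), PerfectMatching (red φ) M' → ∀ u v v', (u, v) ∈ M' →
        (u, v') ∈ M' → v = v' := by
      intro M' hM' u v v' h h'
      obtain ⟨e, -, he⟩ := hM'.2.1 u (mem_vert.2 (hu M' hM' u v h).1)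
      have g1 := he (u, v) ⟨h, rfl⟩
      have g2 := he (u, v') ⟨h', rfl⟩
      have : (u, v) = (u, v') := g1.trans g2.symm
      exact (Prod.mk.inj this).2
    have uqV : ∀ (M' : Set (ℕ × ℕ)), PerfectMatching (red φ) M' → ∀ u u' v, (u, v) ∈ M' →
        (u', v) ∈ M' → u = u' := by
      intro M' hM' u u' v h h'
      obtain ⟨e, -, he⟩ := hM'.2.2 v (mem_vert.2 (hu M' hM' u v h).2.1)
      have g1 := he (u, v) ⟨h, rfl⟩
      have g2 := he (u', v) ⟨h', rfl⟩
      have : (u, v) = (u', v) := g1.trans g2.symm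
      exact (Prod.mk.inj this).1
    refine ⟨fun u v => (u, v) ∈ M₁, fun u v => (u, v) ∈ M₂, ⟨?_, hu M₂ h2, exU M₁ h1, exV M₁ h1,
      exU M₂ h2, exV M₂ h2, uqU M₁ h1, uqV M₁ h1, uqU M₂ h2, uqV M₂ h2, ?_⟩⟩
    · intro u v h
      have h5 : ((u, v), true) ∈ edges φ := h4 _ h
      rw [mem_edges] at h5
      exact ⟨h5.1, h5.2.1, by simpa using h5.2.2⟩
    · intro u v h h'
      exact Set.disjoint_left.1 h3 h h'
  · rintro ⟨A, B, h⟩
    refine ⟨valid_red φ, {e | A e.1 e.2}, {e | B e.1 e.2}, ⟨?_, ?_, ?_⟩, ⟨?_, ?_, ?_⟩, ?_, ?_⟩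
    · rintro ⟨u, v⟩ he
      obtain ⟨g1, g2, g3⟩ := h.aR u v he
      exact ⟨true, mem_edges.2 ⟨g1, g2, Or.inl ⟨rfl, g3⟩⟩⟩
    · intro u hu
      obtain ⟨v, hv⟩ := h.aU u (mem_vert.1 hu)
      refine ⟨(u, v), ⟨hv, rfl⟩, ?_⟩
      rintro ⟨u', v'⟩ ⟨g, g'⟩
      simp only at g'
      subst g'
      exact Prod.ext rfl (h.aU1 _ _ _ g hv)
    · intro v hv
      obtain ⟨u, hu⟩ := h.aV v (mem_vert.1 hv)
      refine ⟨(u, v), ⟨hu, rfl⟩, ?_⟩
      rintro ⟨u', v'⟩ ⟨g, g'⟩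
      simp only at g'
      subst g'
      exact Prod.ext (h.aV1 _ _ _ g hu) rfl
    · rintro ⟨u, v⟩ he
      obtain ⟨g1, g2, g3 | g3⟩ := h.bR u v he
      · exact ⟨true, mem_edges.2 ⟨g1, g2, Or.inl ⟨rfl, g3⟩⟩⟩
      · exact ⟨false, mem_edges.2 ⟨g1, g2, Or.inr ⟨rfl, g3⟩⟩⟩
    · intro u hu
      obtain ⟨v, hv⟩ := h.bU u (mem_vert.1 hu)
      refine ⟨(u, v), ⟨hv, rfl⟩, ?_⟩
      rintro ⟨u', v'⟩ ⟨g, g'⟩
      simp only at g'
      subst g'
      exact Prod.ext rfl (h.bU1 _ _ _ g hv)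
    · intro v hv
      obtain ⟨u, hu⟩ := h.bV v (mem_vert.1 hv)
      refine ⟨(u, v), ⟨hu, rfl⟩, ?_⟩
      rintro ⟨u', v'⟩ ⟨g, g'⟩
      simp only at g'
      subst g'
      exact Prod.ext (h.bV1 _ _ _ g hu) rfl
    · rw [Set.disjoint_left]
      rintro ⟨u, v⟩ g g'
      exact h.dj u v g g'
    · rintro ⟨u, v⟩ he
      obtain ⟨g1, g2, g3⟩ := h.aR u v he
      exact mem_edges.2 ⟨g1, g2, Or.inl ⟨rfl, g3⟩⟩

/-! ### Tokens -/

theorem decomp (m i : ℕ) : i = (i / m) * m + i % m := by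
  rw [mul_comm]; exact (Nat.div_add_mod i m).symm

theorem nxt_block {m v t : ℕ} (ht : t < m) :
    nxt m (v * m + t) = v * m + (if t + 1 = m then 0 else t + 1) := by
  unfold nxt
  have hmod : (v * m + t + 1) % m = (t + 1) % m := by
    have e : v * m + t + 1 = (t + 1) + m * v := by ring
    rw [e, Nat.add_mul_mod_self_left]
  rw [hmod]
  split_ifs with h1 h2 h2
  · omega
  · exfalso
    rw [Nat.mod_eq_of_lt (by omega)] at h1
    omega
  · exfalso
    rw [h2] at h1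
    simp at h1
  · omega

theorem prv_block {m v t : ℕ} (ht : t < m) :
    prv m (v * m + t) = v * m + (if t = 0 then m - 1 else t - 1) := by
  unfold prv
  have hmod : (v * m + t) % m = t := by
    rw [mul_comm, Nat.mul_add_mod, Nat.mod_eq_of_lt ht]
  rw [hmod]
  split_ifs with h1
  · omega
  · omega

theorem block_div {m v t : ℕ} (ht : t < m) : (v * m + t) / m = v := by
  rw [mul_comm, Nat.mul_add_div (by omega), Nat.div_eq_of_lt ht, add_zero]

theorem block_mod {m v t : ℕ} (ht : t < m) : (v * m + t) % m = t := by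
  rw [mul_comm, Nat.mul_add_mod, Nat.mod_eq_of_lt ht]

theorem nxt_div {m : ℕ} (hm : 0 < m) (i : ℕ) : nxt m i / m = i / m := by
  have ht : i % m < m := Nat.mod_lt _ hm
  conv_lhs => rw [decomp m i]
  rw [nxt_block ht, block_div]
  split_ifs <;> omega

theorem prv_div {m : ℕ} (hm : 0 < m) (i : ℕ) : prv m i / m = i / m := by
  have ht : i % m < m := Nat.mod_lt _ hm
  conv_lhs => rw [decomp m i]
  rw [prv_block ht, block_div]
  split_ifs <;> omega

theorem nxt_prv {m : ℕ} (hm : 0 < m) (i : ℕ) : nxt m (prv m i) = i := by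
  have ht : i % m < m := Nat.mod_lt _ hm
  have hd := decomp m i
  generalize i % m = t at *
  generalize i / m = q at *
  subst hd
  have h2 : (if t = 0 then m - 1 else t - 1) < m := by split_ifs <;> omega
  rw [prv_block ht, nxt_block h2]
  congr 1
  split_ifs <;> omega

theorem prv_nxt {m : ℕ} (hm : 0 < m) (i : ℕ) : prv m (nxt m i) = i := by
  have ht : i % m < m := Nat.mod_lt _ hm
  have hd := decomp m i
  generalize i % m = t at *
  generalize i / m = q at *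
  subst hd
  have h2 : (if t + 1 = m then 0 else t + 1) < m := by split_ifs <;> omega
  rw [nxt_block ht, prv_block h2]
  congr 1
  by_cases h : t + 1 = m
  · simp only [if_pos h, if_true]
    omega
  · simp only [if_neg h, if_neg (Nat.succ_ne_zero t)]
    omega

theorem lt_iff_div {m i : ℕ} (hm : 0 < m) : i < m * m ↔ i / m < m := by
  rw [Nat.div_lt_iff_lt_mul hm]

theorem nxt_lt {φ : F3} (hm : 0 < M φ) {i : ℕ} (hi : i < N φ) : nxt (M φ) i < N φ := by
  unfold N at *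
  rw [lt_iff_div hm] at *
  rwa [nxt_div hm]

theorem prv_lt {φ : F3} (hm : 0 < M φ) {i : ℕ} (hi : i < N φ) : prv (M φ) i < N φ := by
  unfold N at *
  rw [lt_iff_div hm] at *
  rwa [prv_div hm]

theorem nxt_inj {m : ℕ} (hm : 0 < m) {i j : ℕ} (h : nxt m i = nxt m j) : i = j := by
  rw [← prv_nxt hm i, h, prv_nxt hm]

/-- The token of an occurrence. -/
def tk (φ : F3) (k : ℕ) : ℕ := (lit φ k).2 * M φ + k

theorem M_eq (φ : F3) : M φ = 3 * φ.length := rfl

theorem lit_lt {φ : F3} (hb : Bounded3 φ) {k : ℕ} (hk : k < M φ) : (lit φ k).2 < M φ := by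
  have h3 : k / 3 < φ.length := by rw [M_eq] at hk; omega
  have hg : φ.getD (k / 3) ((false, 0), (false, 0), (false, 0)) ∈ φ := by
    rw [List.getD_eq_getElem _ _ h3]
    exact List.getElem_mem h3
  obtain ⟨h4, h5, h6⟩ := hb _ hg
  unfold lit
  rw [M_eq]
  split_ifs
  · exact h4
  · exact h5
  · exact h6

theorem tk_lt {φ : F3} (hb : Bounded3 φ) {k : ℕ} (hk : k < M φ) : tk φ k < N φ := by
  unfold N tk
  rw [lt_iff_div (by omega), block_div hk]
  exact lit_lt hb hk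

theorem tk_mod {φ : F3} {k : ℕ} (hk : k < M φ) : tk φ k % M φ = k := block_mod hk

theorem tk_div {φ : F3} {k : ℕ} (hk : k < M φ) : tk φ k / M φ = (lit φ k).2 := block_div hk

theorem ty_tk {φ : F3} {k : ℕ} (hk : k < M φ) :
    ty φ (tk φ k) = if (lit φ k).1 = true then 1 else 2 := by
  unfold ty
  rw [tk_mod hk, tk_div hk, if_pos rfl]

/-- Tokens of nonzero type are tokens of occurrences. -/
theorem eq_tk {φ : F3} {i : ℕ} (h : ty φ i ≠ 0) : i = tk φ (i % M φ) := by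
  unfold ty at h
  split_ifs at h with h1 h2
  · unfold tk; rw [h1]; exact decomp _ _
  · unfold tk; rw [h1]; exact decomp _ _
  · exact absurd rfl h

theorem ty_le (φ : F3) (i : ℕ) : ty φ i = 0 ∨ ty φ i = 1 ∨ ty φ i = 2 := by
  unfold ty
  split_ifs <;> simp

end Pool.Agent.K3h14.CM
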