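import Mathlib
import Pool.Agent.K3h14.CM.Red

set_option autoImplicit false

/-!
# COL-2PM: from the two matchings to the assignment
-/

namespace Pool.Agent.K3h14.CM

open Pool.Agent.NPC
open Pool.Agent.Y592.OP (F3 M lit)

section

variable {φ : F3} {A B : ℕ → ℕ → Prop}

theorem inU_tok {i c : ℕ} (hi : i < N φ) (hc : c < 3) : InU φ (4 * i + c) := by
  unfold InU
  constructor
  · omega
  · rintro ⟨-, h, -⟩
    omega

theorem a_two (h : Two φ A B) {i : ℕ} (hi : i < N φ) : A (4 * i + 2) (4 * i + 2) := by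
  obtain ⟨v, hv⟩ := h.aU _ (inU_tok hi (by omega : 2 < 3))
  obtain ⟨-, -, h3⟩ := h.aR _ _ hv
  have : v = 4 * i + 2 := by
    unfold Red at h3
    omega
  rwa [this] at hv

theorem b_two (h : Two φ A B) {i : ℕ} (hi : i < N φ) : B (4 * i + 2) (4 * i + 1) := by
  obtain ⟨v, hv⟩ := h.bU _ (inU_tok hi (by omega : 2 < 3))
  obtain ⟨-, -, h3⟩ := h.bR _ _ hv
  have h4 : v = 4 * i + 1 ∨ v = 4 * i + 2 := by
    unfold Red Blue at h3
    omega
  rcases h4 with h4 | h4
  · rwa [h4] at hv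
  · rw [h4] at hv
    exact absurd hv (h.dj _ _ (a_two h hi))

/-- The vertex of the occurrence. -/
def pp (φ : F3) (i : ℕ) : ℕ := if ty φ i = 2 then 4 * i + 1 else 4 * i

theorem pp_div (i : ℕ) : pp φ i / 4 = i := by
  unfold pp
  split_ifs <;> omega

theorem b_pp (h : Two φ A B) {i : ℕ} (hi : i < N φ) (ht : ty φ i ≠ 0) :
    ∃ w, B (pp φ i) w ∧ (w = 4 * i ∨ w = 4 * N φ + 2 * cl φ i ∨ w = 4 * N φ + 2 * cl φ i + 1) := by
  have hin : InU φ (pp φ i) := by
    unfold pp
    split_ifs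
    · exact inU_tok hi (by omega : 1 < 3)
    · exact inU_tok hi (by omega : 0 < 3)
  obtain ⟨w, hw⟩ := h.bU _ hin
  refine ⟨w, hw, ?_⟩
  obtain ⟨-, hwin, h3⟩ := h.bR _ _ hw
  have hdiv : pp φ i / 4 = i := pp_div i
  have hmod : (ty φ i = 2 ∧ pp φ i % 4 = 1) ∨ (ty φ i ≠ 2 ∧ pp φ i % 4 = 0) := by
    unfold pp
    split_ifs <;> omega
  generalize pp φ i = u at *
  have key : ∀ i' < N φ, w ≠ 4 * i' + 1 := by
    intro i' hi' hw'
    have g1 := b_two h hi'
    rw [← hw'] at g1
    have := h.bV1 _ _ _ hw g1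
    omega
  have hw3 : w < 4 * N φ → w % 4 = 3 → ty φ (w / 4) = 0 := by
    intro g1 g2
    by_contra g3
    exact hwin.2 ⟨g1, g2, g3⟩
  have key2 : w < 4 * N φ → w % 4 ≠ 1 := by
    intro g1 g2
    exact key (w / 4) (by omega) (by omega)
  rcases h3 with h3 | h3
  · unfold Red at h3
    omega
  · unfold Blue at h3
    rw [hdiv] at h3
    rcases h3 with ⟨g1, g2, g3, g4⟩ | ⟨g1, g2, g3, g4⟩ | ⟨g1, g2⟩
    · have e : w / 4 = i := g3.symm
      rw [e] at hw3
      omega
    · omega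
    · omega

theorem a_step (h : Two φ A B) (hm : 0 < M φ) {i : ℕ} (hi : i < N φ) :
    A (4 * i) (4 * i) ↔ A (4 * nxt (M φ) i) (4 * nxt (M φ) i) := by
  have hn : nxt (M φ) i < N φ := nxt_lt hm hi
  constructor
  · intro h0
    -- the vertex `4 i + 1` is matched to itself
    obtain ⟨v, hv⟩ := h.aU _ (inU_tok hi (by omega : 1 < 3))
    obtain ⟨-, -, h3⟩ := h.aR _ _ hv
    have h4 : v = 4 * i ∨ v = 4 * i + 1 := by
      unfold Red at h3
      omega
    have h1 : A (4 * i + 1) (4 * i + 1) := by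
      rcases h4 with h4 | h4
      · rw [h4] at hv
        have := h.aV1 _ _ _ hv h0
        omega
      · rwa [h4] at hv
    obtain ⟨v', hv'⟩ := h.aU _ (inU_tok hn (by omega : 0 < 3))
    obtain ⟨-, -, h5⟩ := h.aR _ _ hv'
    rw [add_zero] at hv' h5
    have h6 : v' = 4 * nxt (M φ) i ∨ (v' % 4 = 1 ∧ nxt (M φ) i = nxt (M φ) (v' / 4)) := by
      unfold Red at h5
      omega
    rcases h6 with h6 | ⟨h6, h7⟩
    · rwa [h6] at hv'
    · have h8 := nxt_inj hm h7
      have h9 : v' = 4 * i + 1 := by omega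
      rw [h9] at hv'
      have := h.aV1 _ _ _ hv' h1
      omega
  · intro h0
    obtain ⟨u, hu⟩ := h.aV _ (inU_tok hi (by omega : 1 < 3))
    obtain ⟨-, -, h3⟩ := h.aR _ _ hu
    have h4 : u = 4 * i + 1 ∨ u = 4 * nxt (M φ) i := by
      unfold Red at h3
      have e : (4 * i + 1) / 4 = i := by omega
      rw [e] at h3
      omega
    have h1 : A (4 * i + 1) (4 * i + 1) := by
      rcases h4 with h4 | h4
      · rwa [h4] at hu
      · rw [h4] at hu
        have := h.aU1 _ _ _ hu h0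
        omega
    obtain ⟨u', hu'⟩ := h.aV _ (inU_tok hi (by omega : 0 < 3))
    obtain ⟨-, -, h5⟩ := h.aR _ _ hu'
    rw [add_zero] at hu' h5
    have h6 : u' = 4 * i ∨ u' = 4 * i + 1 := by
      unfold Red at h5
      omega
    rcases h6 with h6 | h6
    · rwa [h6] at hu'
    · rw [h6] at hu'
      have := h.aU1 _ _ _ hu' h1
      omega

theorem a_const (h : Two φ A B) {v : ℕ} (hv : v < M φ) (t : ℕ) (ht : t < M φ) :
    A (4 * (v * M φ + t)) (4 * (v * M φ + t)) ↔ A (4 * (v * M φ)) (4 * (v * M φ)) := by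
  have hm : 0 < M φ := by omega
  have hlt : ∀ t < M φ, v * M φ + t < N φ := by
    intro t ht
    unfold N
    rw [lt_iff_div hm, block_div ht]
    exact hv
  induction t with
  | zero => rfl
  | succ t ih =>
    have h1 := ih (by omega)
    have h2 := a_step h hm (hlt t (by omega))
    rw [nxt_block (by omega : t < M φ), if_neg (by omega)] at h2
    exact h2.symm.trans h1

theorem clause_of_lit {c : Lit ℕ × Lit ℕ × Lit ℕ} {j : ℕ} (hj : φ[j]? = some c) :
    lit φ (3 * j) = c.1 ∧ lit φ (3 * j + 1) = c.2.1 ∧ lit φ (3 * j + 2) = c.2.2 := by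
  have e0 : 3 * j / 3 = j := by omega
  have e1 : (3 * j + 1) / 3 = j := by omega
  have e2 : (3 * j + 2) / 3 = j := by omega
  have hg : φ.getD j ((false, 0), (false, 0), (false, 0)) = c := by
    rw [List.getD_eq_getElem?_getD, hj]
    rfl
  unfold lit
  rw [e0, e1, e2, hg]
  refine ⟨if_pos (by omega), ?_, ?_⟩
  · rw [if_neg (by omega), if_pos (by omega)]
  · rw [if_neg (by omega), if_neg (by omega)]

theorem sat_of_two (hb : Bounded3 φ) (h : Two φ A B) : SAT3 φ := by
  classical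
  let τ : ℕ → Bool := fun v => decide (¬ A (4 * (v * M φ)) (4 * (v * M φ)))
  have good : ∀ k, k < M φ → B (pp φ (tk φ k)) (4 * tk φ k) → τ (lit φ k).2 = (lit φ k).1 := by
    intro k hk hB
    have hm : 0 < M φ := by omega
    have hlt := tk_lt hb hk
    have hna : ¬ A (pp φ (tk φ k)) (4 * tk φ k) := fun g => h.dj _ _ g hB
    have hc := a_const h (lit_lt hb hk) k hk
    have hty := ty_tk hk
    unfold pp at hna
    rcases hb' : (lit φ k).1 with _ | _
    · rw [hb'] at hty
      simp only [Bool.false_eq_true, if_false] at hty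
      rw [if_pos hty] at hna
      obtain ⟨u, hu⟩ := h.aV _ (inU_tok hlt (by omega : 0 < 3))
      rw [add_zero] at hu
      obtain ⟨-, -, h5⟩ := h.aR _ _ hu
      have h6 : u = 4 * tk φ k ∨ u = 4 * tk φ k + 1 := by
        unfold Red at h5
        omega
      rcases h6 with h6 | h6
      · rw [h6] at hu
        have h7 : A (4 * ((lit φ k).2 * M φ)) (4 * ((lit φ k).2 * M φ)) := hc.1 hu
        simp [τ, h7]
      · rw [h6] at hu
        exact absurd hu hna
    · rw [hb'] at hty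
      simp only [if_true] at hty
      rw [if_neg (by omega)] at hna
      have h7 : ¬ A (4 * ((lit φ k).2 * M φ)) (4 * ((lit φ k).2 * M φ)) := fun g => hna (hc.2 g)
      simp [τ, h7]
  refine ⟨τ, ?_⟩
  intro c hc
  obtain ⟨j, hj⟩ := List.mem_iff_getElem?.1 hc
  have hjl : j < φ.length := by
    by_contra hcon
    rw [List.getElem?_eq_none (by omega)] at hj
    simp at hj
  obtain ⟨e0, e1, e2⟩ := clause_of_lit hj
  have hM := M_eq φ
  rw [← e0, ← e1, ← e2]
  by_contra hcon
  push Not at hcon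
  obtain ⟨c0, c1, c2⟩ := hcon
  have hpart : ∀ k, k < M φ → k / 3 = j → τ (lit φ k).2 ≠ (lit φ k).1 →
      ∃ w, B (pp φ (tk φ k)) w ∧ (w = 4 * N φ + 2 * j ∨ w = 4 * N φ + 2 * j + 1) := by
    intro k hk hkj hne
    have hty : ty φ (tk φ k) ≠ 0 := by
      rw [ty_tk hk]
      split_ifs <;> omega
    obtain ⟨w, hw, hw'⟩ := b_pp h (tk_lt hb hk) hty
    have hcl : cl φ (tk φ k) = j := by
      unfold cl
      rw [tk_mod hk]
      exact hkj
    rw [hcl] at hw'
    rcases hw' with hw' | hw'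
    · rw [hw'] at hw
      exact absurd (good k hk hw) hne
    · exact ⟨w, hw, hw'⟩
  obtain ⟨w0, hw0, d0⟩ := hpart (3 * j) (by omega) (by omega) c0
  obtain ⟨w1, hw1, d1⟩ := hpart (3 * j + 1) (by omega) (by omega) c1
  obtain ⟨w2, hw2, d2⟩ := hpart (3 * j + 2) (by omega) (by omega) c2
  have hinj : ∀ k k', k < M φ → k' < M φ → pp φ (tk φ k) = pp φ (tk φ k') → k = k' := by
    intro k k' hk hk' hp
    have g := congrArg (fun x => x / 4) hp
    simp only [pp_div] at g
    rw [← tk_mod hk, g, tk_mod hk']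
  have hcase : w0 = w1 ∨ w0 = w2 ∨ w1 = w2 := by omega
  rcases hcase with g | g | g
  · rw [g] at hw0
    have := hinj _ _ (by omega) (by omega) (h.bV1 _ _ _ hw0 hw1)
    omega
  · rw [g] at hw0
    have := hinj _ _ (by omega) (by omega) (h.bV1 _ _ _ hw0 hw2)
    omega
  · rw [g] at hw1
    have := hinj _ _ (by omega) (by omega) (h.bV1 _ _ _ hw1 hw2)
    omega

end

end Pool.Agent.K3h14.CM
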