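import Mathlib
import Pool.Agent.K3h14.CM.Bwd

set_option autoImplicit false

/-!
# COL-2PM: from the assignment to the two matchings
-/

namespace Pool.Agent.K3h14.CM

open Pool.Agent.NPC
open Pool.Agent.Y592.OP (F3 M lit)

/-- The first matching. -/
def FA (φ : F3) (τ : ℕ → Bool) (u v : ℕ) : Prop :=
  InU φ u ∧ InU φ v ∧
    ((u = v ∧ (4 * N φ ≤ u ∨ 2 ≤ u % 4 ∨ τ (u / 4 / M φ) = false)) ∨
      (u < 4 * N φ ∧ v < 4 * N φ ∧ τ (v / 4 / M φ) = true ∧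
        ((u / 4 = v / 4 ∧ u % 4 = 1 ∧ v % 4 = 0) ∨
          (u % 4 = 0 ∧ v % 4 = 1 ∧ u / 4 = nxt (M φ) (v / 4)))))

/-- The rank of the occurrence in its clause; the chosen occurrence has rank `2`. -/
def rk (φ : F3) (cc : ℕ → ℕ) (i : ℕ) : ℕ := ((i % M φ) % 3 + 2 - cc (cl φ i)) % 3

/-- The second matching inside a token: the residues. -/
def Loc (t r a b : ℕ) : Prop :=
  (a = 2 ∧ b = 1) ∨ (t = 2 ∧ a = 0 ∧ b = 2) ∨ (t ≠ 2 ∧ a = 1 ∧ b = 2) ∨ (t = 0 ∧ a = 0 ∧ b = 3) ∨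
    (t = 0 ∧ a = 3 ∧ b = 0) ∨ (r = 2 ∧ t = 1 ∧ a = 0 ∧ b = 0) ∨ (r = 2 ∧ t = 2 ∧ a = 1 ∧ b = 0)

/-- The second matching. -/
def FB (φ : F3) (cc : ℕ → ℕ) (u v : ℕ) : Prop :=
  InU φ u ∧ InU φ v ∧
    ((u < 4 * N φ ∧ v < 4 * N φ ∧ u / 4 = v / 4 ∧
      Loc (ty φ (u / 4)) (rk φ cc (u / 4)) (u % 4) (v % 4)) ∨
    (u < 4 * N φ ∧ rk φ cc (u / 4) ≠ 2 ∧ ty φ (u / 4) ≠ 0 ∧
      v = 4 * N φ + 2 * cl φ (u / 4) + rk φ cc (u / 4) ∧ u = pp φ (u / 4)) ∨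
    (v < 4 * N φ ∧ rk φ cc (v / 4) ≠ 2 ∧ ty φ (v / 4) ≠ 0 ∧
      u = 4 * N φ + 2 * cl φ (v / 4) + rk φ cc (v / 4) ∧ v % 4 = 0))

section

variable {φ : F3} {τ : ℕ → Bool} {cc : ℕ → ℕ}

theorem rk_lt (i : ℕ) : rk φ cc i < 3 := by
  unfold rk
  exact Nat.mod_lt _ (by omega)

theorem inU_lt {n : ℕ} (h : InU φ n) : n < 4 * N φ + 2 * φ.length := h.1

theorem inU_three {n : ℕ} (h : InU φ n) (h1 : n < 4 * N φ) (h2 : n % 4 = 3) :
    ty φ (n / 4) = 0 := by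
  by_contra h3
  exact h.2 ⟨h1, h2, h3⟩

theorem cl_lt (hm : 0 < M φ) (i : ℕ) : cl φ i < φ.length := by
  unfold cl
  have h1 : i % M φ < M φ := Nat.mod_lt _ hm
  rw [M_eq] at *
  omega

theorem inU_clause {j d : ℕ} (hj : j < φ.length) (hd : d < 2) : InU φ (4 * N φ + 2 * j + d) := by
  unfold InU
  constructor
  · omega
  · rintro ⟨h, -⟩
    omega

theorem inU_res {i c : ℕ} (hi : i < N φ) (hc : c < 4) (h : c = 3 → ty φ i = 0) :
    InU φ (4 * i + c) := by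
  unfold InU
  constructor
  · omega
  · rintro ⟨-, h1, h2⟩
    have e : (4 * i + c) / 4 = i := by omega
    rw [e] at h2
    exact h2 (h (by omega))

/-- Two tokens of occurrences with the same clause and the same rank are equal. -/
theorem rk_inj (hc : ∀ j, cc j < 3) {i i' : ℕ} (h1 : ty φ i ≠ 0) (h2 : ty φ i' ≠ 0)
    (h3 : cl φ i = cl φ i') (h4 : rk φ cc i = rk φ cc i') : i = i' := by
  have g : i % M φ = i' % M φ := by
    unfold rk at h4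
    rw [h3] at h4
    have h5 := hc (cl φ i')
    unfold cl at h3
    have h6 : (i % M φ) % 3 = (i' % M φ) % 3 := by
      have h7 : (i % M φ) % 3 < 3 := Nat.mod_lt _ (by omega)
      have h8 : (i' % M φ) % 3 < 3 := Nat.mod_lt _ (by omega)
      generalize (i % M φ) % 3 = a at *
      generalize (i' % M φ) % 3 = b at *
      generalize cc (cl φ i') = c at *
      clear h1 h2 h3
      interval_cases a <;> interval_cases b <;> interval_cases c <;> omega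
    omega
  rw [eq_tk h1, g, ← eq_tk h2]

/-- The token of the occurrence with a given rank. -/
theorem exists_rk (hb : Bounded3 φ) (hc : ∀ j, cc j < 3) {j : ℕ} (hj : j < φ.length) {d : ℕ}
    (hd : d < 2) : ∃ i < N φ, ty φ i ≠ 0 ∧ cl φ i = j ∧ rk φ cc i = d := by
  have h0 := hc j
  have hM := M_eq φ
  obtain ⟨k, hk, hk1, hk2⟩ : ∃ k, k < M φ ∧ k / 3 = j ∧ (k % 3 + 2 - cc j) % 3 = d := by
    refine ⟨3 * j + (cc j + 1 + d) % 3, ?_, ?_, ?_⟩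
    · omega
    · omega
    · generalize cc j = c at *
      have e : (3 * j + (c + 1 + d) % 3) % 3 = (c + 1 + d) % 3 := by omega
      rw [e]
      interval_cases c <;> interval_cases d <;> rfl
  have hcl : cl φ (tk φ k) = j := by
    unfold cl
    rw [tk_mod hk]
    exact hk1
  refine ⟨tk φ k, tk_lt hb hk, ?_, hcl, ?_⟩
  · rw [ty_tk hk]
    split_ifs <;> omega
  · unfold rk
    rw [hcl, tk_mod hk]
    exact hk2

theorem fa_red {u v : ℕ} (h : FA φ τ u v) : InU φ u ∧ InU φ v ∧ Red φ u v := by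
  obtain ⟨h1, h2, h3⟩ := h
  refine ⟨h1, h2, ?_⟩
  rcases h3 with ⟨g1, g2⟩ | ⟨g1, g2, g3, g4 | g4⟩
  · subst g1
    by_cases hN : 4 * N φ ≤ u
    · exact Or.inr ⟨hN, rfl⟩
    · exact Or.inl ⟨by omega, by omega, Or.inl ⟨rfl, Or.inl rfl⟩⟩
  · exact Or.inl ⟨g1, g2, Or.inl ⟨g4.1, Or.inr g4.2⟩⟩
  · exact Or.inl ⟨g1, g2, Or.inr g4⟩

theorem pp_mod (i : ℕ) : (ty φ i = 2 ∧ pp φ i % 4 = 1) ∨ (ty φ i ≠ 2 ∧ pp φ i % 4 = 0) := by
  unfold pp
  split_ifs <;> omega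

theorem inU_pp {i : ℕ} (hi : i < N φ) : InU φ (pp φ i) := by
  unfold pp
  split_ifs
  · exact inU_tok hi (by omega : 1 < 3)
  · exact inU_tok hi (by omega : 0 < 3)

theorem fb_col {u v : ℕ} (h : FB φ cc u v) : InU φ u ∧ InU φ v ∧ (Red φ u v ∨ Blue φ u v) := by
  obtain ⟨h1, h2, h3⟩ := h
  refine ⟨h1, h2, ?_⟩
  rcases h3 with ⟨g1, g2, g3, g4⟩ | ⟨g1, g2, g3, g4, g5⟩ | ⟨g1, g2, g3, g4, g5⟩
  · rcases g4 with g4 | g4 | g4 | g4 | g4 | g4 | g4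
    · exact Or.inr (Or.inl ⟨g1, g2, g3, Or.inl g4⟩)
    · exact Or.inr (Or.inl ⟨g1, g2, g3, Or.inr (Or.inl g4)⟩)
    · exact Or.inr (Or.inl ⟨g1, g2, g3, Or.inr (Or.inr (Or.inl g4))⟩)
    · exact Or.inr (Or.inl ⟨g1, g2, g3, Or.inr (Or.inr (Or.inr (Or.inl g4.2)))⟩)
    · exact Or.inr (Or.inl ⟨g1, g2, g3, Or.inr (Or.inr (Or.inr (Or.inr g4.2)))⟩)
    · exact Or.inl (Or.inl ⟨g1, g2, Or.inl ⟨g3, Or.inl (g4.2.2.1.trans g4.2.2.2.symm)⟩⟩)
    · exact Or.inl (Or.inl ⟨g1, g2, Or.inl ⟨g3, Or.inr g4.2.2⟩⟩)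
  · have h5 := rk_lt (φ := φ) (cc := cc) (u / 4)
    have h6 := pp_mod (φ := φ) (u / 4)
    rw [← g5] at h6
    have h7 := ty_le φ (u / 4)
    refine Or.inr (Or.inr (Or.inl ⟨g1, by omega, by omega, ?_⟩))
    rcases h6 with h6 | h6
    · exact Or.inr h6
    · exact Or.inl ⟨by omega, h6.2⟩
  · have h5 := rk_lt (φ := φ) (cc := cc) (v / 4)
    exact Or.inr (Or.inr (Or.inr ⟨by omega, g1, by omega, g3, g5⟩))

theorem fa_u (hm : 0 < M φ) {u : ℕ} (hu : InU φ u) : ∃ v, FA φ τ u v := by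
  by_cases h1 : 4 * N φ ≤ u ∨ 2 ≤ u % 4 ∨ τ (u / 4 / M φ) = false
  · exact ⟨u, hu, hu, Or.inl ⟨rfl, h1⟩⟩
  · push Not at h1
    obtain ⟨h1, h2, h3⟩ := h1
    have h3' : τ (u / 4 / M φ) = true := by simpa using h3
    have hi : u / 4 < N φ := by omega
    have hc : u % 4 = 0 ∨ u % 4 = 1 := by omega
    rcases hc with hc | hc
    · have hp := prv_lt hm hi
      have e : (4 * prv (M φ) (u / 4) + 1) / 4 = prv (M φ) (u / 4) := by omega
      refine ⟨4 * prv (M φ) (u / 4) + 1, hu, inU_tok hp (by omega), Or.inr ⟨h1, by omega, ?_, ?_⟩⟩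
      · rw [e, prv_div hm]
        exact h3'
      · right
        refine ⟨hc, by omega, ?_⟩
        rw [e, nxt_prv hm]
    · refine ⟨4 * (u / 4) + 0, hu, inU_tok hi (by omega), Or.inr ⟨h1, by omega, ?_, ?_⟩⟩
      · have e : (4 * (u / 4) + 0) / 4 = u / 4 := by omega
        rw [e]
        exact h3'
      · left
        exact ⟨by omega, hc, by omega⟩

theorem fa_v (hm : 0 < M φ) {v : ℕ} (hv : InU φ v) : ∃ u, FA φ τ u v := by
  by_cases h1 : 4 * N φ ≤ v ∨ 2 ≤ v % 4 ∨ τ (v / 4 / M φ) = false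
  · exact ⟨v, hv, hv, Or.inl ⟨rfl, h1⟩⟩
  · push Not at h1
    obtain ⟨h1, h2, h3⟩ := h1
    have h3' : τ (v / 4 / M φ) = true := by simpa using h3
    have hi : v / 4 < N φ := by omega
    have hc : v % 4 = 0 ∨ v % 4 = 1 := by omega
    rcases hc with hc | hc
    · refine ⟨4 * (v / 4) + 1, inU_tok hi (by omega), hv, Or.inr ⟨by omega, h1, h3', ?_⟩⟩
      left
      exact ⟨by omega, by omega, hc⟩
    · have hp := nxt_lt hm hi
      refine ⟨4 * nxt (M φ) (v / 4) + 0, inU_tok hp (by omega), hv,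
        Or.inr ⟨by omega, h1, h3', ?_⟩⟩
      right
      exact ⟨by omega, hc, by omega⟩

theorem fa_u1 (hm : 0 < M φ) {u v v' : ℕ} (h : FA φ τ u v) (h' : FA φ τ u v') : v = v' := by
  obtain ⟨-, -, h3⟩ := h
  obtain ⟨-, -, h3'⟩ := h'
  rcases h3 with ⟨g1, g2⟩ | ⟨g1, g2, g3, g4⟩ <;> rcases h3' with ⟨g1', g2'⟩ | ⟨g1', g2', g3', g4'⟩
  · omega
  · -- diagonal against cycle
    exfalso
    subst g1
    have e : u / 4 / M φ = v' / 4 / M φ := by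
      rcases g4' with ⟨k1, k2, k3⟩ | ⟨k1, k2, k3⟩
      · rw [k1]
      · rw [k3, nxt_div hm]
    rw [e, g3'] at g2
    rcases g2 with g2 | g2 | g2
    · omega
    · omega
    · exact absurd g2 (by simp)
  · exfalso
    subst g1'
    have e : u / 4 / M φ = v / 4 / M φ := by
      rcases g4 with ⟨k1, k2, k3⟩ | ⟨k1, k2, k3⟩
      · rw [k1]
      · rw [k3, nxt_div hm]
    rw [e, g3] at g2'
    rcases g2' with g2' | g2' | g2'
    · omega
    · omega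
    · exact absurd g2' (by simp)
  · rcases g4 with ⟨k1, k2, k3⟩ | ⟨k1, k2, k3⟩ <;> rcases g4' with ⟨k1', k2', k3'⟩ | ⟨k1', k2', k3'⟩
    · omega
    · omega
    · omega
    · have := nxt_inj hm (k3.symm.trans k3')
      omega

theorem fa_v1 (hm : 0 < M φ) {u u' v : ℕ} (h : FA φ τ u v) (h' : FA φ τ u' v) : u = u' := by
  obtain ⟨-, -, h3⟩ := h
  obtain ⟨-, -, h3'⟩ := h'
  rcases h3 with ⟨g1, g2⟩ | ⟨g1, g2, g3, g4⟩ <;> rcases h3' with ⟨g1', g2'⟩ | ⟨g1', g2', g3', g4'⟩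
  · omega
  · exfalso
    subst g1
    rw [g3'] at g2
    rcases g2 with g2 | g2 | g2
    · omega
    · omega
    · exact absurd g2 (by simp)
  · exfalso
    subst g1'
    rw [g3] at g2'
    rcases g2' with g2' | g2' | g2'
    · omega
    · omega
    · exact absurd g2' (by simp)
  · rcases g4 with ⟨k1, k2, k3⟩ | ⟨k1, k2, k3⟩ <;> rcases g4' with ⟨k1', k2', k3'⟩ | ⟨k1', k2', k3'⟩
    · omega
    · omega
    · omega
    · omega

end

end Pool.Agent.K3h14.CM
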