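import Mathlib
import Pool.Agent.K3h14.CM.Fwd

set_option autoImplicit false

/-!
# COL-2PM: correctness of the reduction
-/

namespace Pool.Agent.K3h14.CM

open Pool.Agent.NPC
open Pool.Agent.Y592.OP (F3 M lit)

section

variable {φ : F3} {τ : ℕ → Bool} {cc : ℕ → ℕ}

/-- An edge of the second matching inside a token. -/
theorem fb_loc {i a b : ℕ} (hi : i < N φ) (ha : a < 4) (hb : b < 4)
    (ha3 : a = 3 → ty φ i = 0) (hb3 : b = 3 → ty φ i = 0)
    (h : Loc (ty φ i) (rk φ cc i) a b) : FB φ cc (4 * i + a) (4 * i + b) := by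
  have e1 : (4 * i + a) / 4 = i := by omega
  have e2 : (4 * i + b) / 4 = i := by omega
  have e3 : (4 * i + a) % 4 = a := by omega
  have e4 : (4 * i + b) % 4 = b := by omega
  refine ⟨inU_res hi ha ha3, inU_res hi hb hb3, Or.inl ⟨by omega, by omega, by omega, ?_⟩⟩
  rw [e1, e3, e4]
  exact h

theorem split4 (u : ℕ) : u = 4 * (u / 4) + u % 4 := (Nat.div_add_mod u 4).symm

theorem fb_u (hb : Bounded3 φ) (hc : ∀ j, cc j < 3) (hm : 0 < M φ) {u : ℕ} (hu : InU φ u) :
    ∃ v, FB φ cc u v := by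
  by_cases h1 : 4 * N φ ≤ u
  · -- a clause vertex
    have hlt := inU_lt hu
    obtain ⟨i, hi, ht, hcl, hrk⟩ := exists_rk hb hc (j := (u - 4 * N φ) / 2) (by omega)
      (d := (u - 4 * N φ) % 2) (by omega)
    have e : (4 * i + 0) / 4 = i := by omega
    refine ⟨4 * i + 0, hu, inU_tok hi (by omega), Or.inr (Or.inr ⟨by omega, ?_, ?_, ?_, by omega⟩)⟩
    · rw [e]; omega
    · rw [e]; exact ht
    · rw [e, hcl, hrk]; omega
  · have hi : u / 4 < N φ := by omega
    have hr : u % 4 = 0 ∨ u % 4 = 1 ∨ u % 4 = 2 ∨ u % 4 = 3 := by omega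
    have hty := ty_le φ (u / 4)
    have hs := split4 u
    have hin3 := inU_three hu (by omega)
    -- the vertex of the occurrence
    have hocc : ty φ (u / 4) ≠ 0 → u = pp φ (u / 4) → rk φ cc (u / 4) ≠ 2 →
        ∃ v, FB φ cc u v := by
      intro ht hp hrk
      have hrl := rk_lt (φ := φ) (cc := cc) (u / 4)
      exact ⟨4 * N φ + 2 * cl φ (u / 4) + rk φ cc (u / 4), hu,
          inU_clause (cl_lt hm _) (by omega), Or.inr (Or.inl ⟨by omega, hrk, ht, rfl, hp⟩)⟩
    rcases hr with hr | hr | hr | hr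
    · rw [hr] at hs
      rcases hty with ht | ht | ht
      · exact ⟨4 * (u / 4) + 3, by
          conv => arg 3; rw [hs]
          exact fb_loc hi (by omega) (by omega) (by omega) (fun _ => ht)
            (Or.inr (Or.inr (Or.inr (Or.inl ⟨ht, rfl, rfl⟩))))⟩
      · by_cases hrk : rk φ cc (u / 4) = 2
        · exact ⟨4 * (u / 4) + 0, by
            conv => arg 3; rw [hs]
            exact fb_loc hi (by omega) (by omega) (by omega) (by omega)
              (Or.inr (Or.inr (Or.inr (Or.inr (Or.inr (Or.inl ⟨hrk, ht, rfl, rfl⟩))))))⟩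
        · refine hocc (by omega) ?_ hrk
          unfold pp
          rw [if_neg (by omega)]
          exact hs
      · exact ⟨4 * (u / 4) + 2, by
          conv => arg 3; rw [hs]
          exact fb_loc hi (by omega) (by omega) (by omega) (by omega)
            (Or.inr (Or.inl ⟨ht, rfl, rfl⟩))⟩
    · rw [hr] at hs
      by_cases ht : ty φ (u / 4) = 2
      · by_cases hrk : rk φ cc (u / 4) = 2
        · exact ⟨4 * (u / 4) + 0, by
            conv => arg 3; rw [hs]
            exact fb_loc hi (by omega) (by omega) (by omega) (by omega)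
              (Or.inr (Or.inr (Or.inr (Or.inr (Or.inr (Or.inr ⟨hrk, ht, rfl, rfl⟩))))))⟩
        · refine hocc (by omega) ?_ hrk
          unfold pp
          rw [if_pos ht]
          exact hs
      · exact ⟨4 * (u / 4) + 2, by
          conv => arg 3; rw [hs]
          exact fb_loc hi (by omega) (by omega) (by omega) (by omega)
            (Or.inr (Or.inr (Or.inl ⟨ht, rfl, rfl⟩)))⟩
    · rw [hr] at hs
      exact ⟨4 * (u / 4) + 1, by
        conv => arg 3; rw [hs]
        exact fb_loc hi (by omega) (by omega) (by omega) (by omega) (Or.inl ⟨rfl, rfl⟩)⟩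
    · rw [hr] at hs
      have ht := hin3 hr
      exact ⟨4 * (u / 4) + 0, by
        conv => arg 3; rw [hs]
        exact fb_loc hi (by omega) (by omega) (fun _ => ht) (by omega)
          (Or.inr (Or.inr (Or.inr (Or.inr (Or.inl ⟨ht, rfl, rfl⟩)))))⟩

theorem fb_v (hb : Bounded3 φ) (hc : ∀ j, cc j < 3) (hm : 0 < M φ) {v : ℕ} (hv : InU φ v) :
    ∃ u, FB φ cc u v := by
  by_cases h1 : 4 * N φ ≤ v
  · have hlt := inU_lt hv
    obtain ⟨i, hi, ht, hcl, hrk⟩ := exists_rk hb hc (j := (v - 4 * N φ) / 2) (by omega)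
      (d := (v - 4 * N φ) % 2) (by omega)
    have hpp : pp φ i / 4 = i := pp_div i
    refine ⟨pp φ i, inU_pp hi, hv, Or.inr (Or.inl ⟨by omega, ?_, ?_, ?_, ?_⟩)⟩
    · rw [hpp]; omega
    · rw [hpp]; exact ht
    · rw [hpp, hcl, hrk]; omega
    · rw [hpp]
  · have hi : v / 4 < N φ := by omega
    have hr : v % 4 = 0 ∨ v % 4 = 1 ∨ v % 4 = 2 ∨ v % 4 = 3 := by omega
    have hty := ty_le φ (v / 4)
    have hs := split4 v
    have hin3 := inU_three hv (by omega)
    have hcls : ty φ (v / 4) ≠ 0 → v % 4 = 0 → rk φ cc (v / 4) ≠ 2 → ∃ u, FB φ cc u v := by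
      intro ht h0 hrk
      have hrl := rk_lt (φ := φ) (cc := cc) (v / 4)
      exact ⟨4 * N φ + 2 * cl φ (v / 4) + rk φ cc (v / 4),
            inU_clause (cl_lt hm _) (by omega), hv, Or.inr (Or.inr ⟨by omega, hrk, ht, rfl, h0⟩)⟩
    rcases hr with hr | hr | hr | hr
    · rcases hty with ht | ht | ht
      · rw [hr] at hs
        exact ⟨4 * (v / 4) + 3, by
          conv => arg 4; rw [hs]
          exact fb_loc hi (by omega) (by omega) (fun _ => ht) (by omega)
            (Or.inr (Or.inr (Or.inr (Or.inr (Or.inl ⟨ht, rfl, rfl⟩)))))⟩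
      · by_cases hrk : rk φ cc (v / 4) = 2
        · rw [hr] at hs
          exact ⟨4 * (v / 4) + 0, by
            conv => arg 4; rw [hs]
            exact fb_loc hi (by omega) (by omega) (by omega) (by omega)
              (Or.inr (Or.inr (Or.inr (Or.inr (Or.inr (Or.inl ⟨hrk, ht, rfl, rfl⟩))))))⟩
        · exact hcls (by omega) hr hrk
      · by_cases hrk : rk φ cc (v / 4) = 2
        · rw [hr] at hs
          exact ⟨4 * (v / 4) + 1, by
            conv => arg 4; rw [hs]
            exact fb_loc hi (by omega) (by omega) (by omega) (by omega)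
              (Or.inr (Or.inr (Or.inr (Or.inr (Or.inr (Or.inr ⟨hrk, ht, rfl, rfl⟩))))))⟩
        · exact hcls (by omega) hr hrk
    · rw [hr] at hs
      exact ⟨4 * (v / 4) + 2, by
        conv => arg 4; rw [hs]
        exact fb_loc hi (by omega) (by omega) (by omega) (by omega) (Or.inl ⟨rfl, rfl⟩)⟩
    · rw [hr] at hs
      by_cases ht : ty φ (v / 4) = 2
      · exact ⟨4 * (v / 4) + 0, by
          conv => arg 4; rw [hs]
          exact fb_loc hi (by omega) (by omega) (by omega) (by omega)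
            (Or.inr (Or.inl ⟨ht, rfl, rfl⟩))⟩
      · exact ⟨4 * (v / 4) + 1, by
          conv => arg 4; rw [hs]
          exact fb_loc hi (by omega) (by omega) (by omega) (by omega)
            (Or.inr (Or.inr (Or.inl ⟨ht, rfl, rfl⟩)))⟩
    · rw [hr] at hs
      have ht := hin3 hr
      exact ⟨4 * (v / 4) + 0, by
        conv => arg 4; rw [hs]
        exact fb_loc hi (by omega) (by omega) (by omega) (fun _ => ht)
          (Or.inr (Or.inr (Or.inr (Or.inl ⟨ht, rfl, rfl⟩))))⟩

theorem loc_u {t r a b b' : ℕ} (h : Loc t r a b) (h' : Loc t r a b') : b = b' := by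
  rcases h with h | h | h | h | h | h | h <;> rcases h' with h' | h' | h' | h' | h' | h' | h' <;>
    omega

theorem loc_v {t r a a' b : ℕ} (h : Loc t r a b) (h' : Loc t r a' b) : a = a' := by
  rcases h with h | h | h | h | h | h | h <;> rcases h' with h' | h' | h' | h' | h' | h' | h' <;>
    omega

theorem loc_pp {t r a b : ℕ} (h : Loc t r a b) (ht : t ≠ 0) (ha : (t = 2 ∧ a = 1) ∨
    (t ≠ 2 ∧ a = 0)) : r = 2 := by
  rcases h with h | h | h | h | h | h | h <;> omega

theorem loc_zero {t r a b : ℕ} (h : Loc t r a b) (ht : t ≠ 0) (hb : b = 0) : r = 2 := by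
  rcases h with h | h | h | h | h | h | h <;> omega

theorem fb_u1 (hc : ∀ j, cc j < 3) {u v v' : ℕ} (h : FB φ cc u v) (h' : FB φ cc u v') :
    v = v' := by
  obtain ⟨h1, h2, h3⟩ := h
  obtain ⟨h1', h2', h3'⟩ := h'
  rcases h3 with ⟨g1, g2, g3, g4⟩ | ⟨g1, g2, g3, g4, g5⟩ | ⟨g1, g2, g3, g4, g5⟩ <;>
    rcases h3' with ⟨g1', g2', g3', g4'⟩ | ⟨g1', g2', g3', g4', g5'⟩ | ⟨g1', g2', g3', g4', g5'⟩
  · have := loc_u g4 g4'
    omega
  · have h6 := pp_mod (φ := φ) (u / 4)
    rw [← g5'] at h6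
    exact absurd (loc_pp g4 g3' h6) g2'
  · omega
  · have h6 := pp_mod (φ := φ) (u / 4)
    rw [← g5] at h6
    exact absurd (loc_pp g4' g3 h6) g2
  · omega
  · omega
  · omega
  · omega
  · have r1 := rk_lt (φ := φ) (cc := cc) (v / 4)
    have r2 := rk_lt (φ := φ) (cc := cc) (v' / 4)
    have := rk_inj hc g3 g3' (by omega) (by omega)
    omega

theorem fb_v1 (hc : ∀ j, cc j < 3) {u u' v : ℕ} (h : FB φ cc u v) (h' : FB φ cc u' v) :
    u = u' := by
  obtain ⟨h1, h2, h3⟩ := h
  obtain ⟨h1', h2', h3'⟩ := h'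
  rcases h3 with ⟨g1, g2, g3, g4⟩ | ⟨g1, g2, g3, g4, g5⟩ | ⟨g1, g2, g3, g4, g5⟩ <;>
    rcases h3' with ⟨g1', g2', g3', g4'⟩ | ⟨g1', g2', g3', g4', g5'⟩ | ⟨g1', g2', g3', g4', g5'⟩
  · rw [g3] at g4
    rw [g3'] at g4'
    have := loc_v g4 g4'
    omega
  · omega
  · rw [g3] at g4
    exact absurd (loc_zero g4 g3' g5') g2'
  · omega
  · have r1 := rk_lt (φ := φ) (cc := cc) (u / 4)
    have r2 := rk_lt (φ := φ) (cc := cc) (u' / 4)
    have k := rk_inj hc (i := u / 4) (i' := u' / 4) g3 g3' (by omega) (by omega)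
    rw [g5, g5', k]
  · omega
  · rw [g3'] at g4'
    exact absurd (loc_zero g4' g3 g5) g2
  · omega
  · omega

theorem loc_red {t r a b : ℕ} (h : Loc t r a b) (h' : a = b ∨ (a = 1 ∧ b = 0) ∨ (a = 0 ∧ b = 1)) :
    r = 2 ∧ b = 0 ∧ ((t = 1 ∧ a = 0) ∨ (t = 2 ∧ a = 1)) := by
  rcases h with h | h | h | h | h | h | h <;> omega

theorem two_of_sat (hb : Bounded3 φ) (hm : 0 < M φ) (h : SAT3 φ) :
    ∃ A B : ℕ → ℕ → Prop, Two φ A B := by
  obtain ⟨τ, hτ⟩ := h
  have hcc : ∀ j, ∃ c, c < 3 ∧ (j < φ.length → τ (lit φ (3 * j + c)).2 = (lit φ (3 * j + c)).1) := by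
    intro j
    by_cases hj : j < φ.length
    · have hg : φ[j]? = some φ[j] := List.getElem?_eq_getElem hj
      obtain ⟨e0, e1, e2⟩ := clause_of_lit hg
      rcases hτ φ[j] (List.getElem_mem hj) with h1 | h1 | h1
      · refine ⟨0, by omega, fun _ => ?_⟩
        rw [add_zero, e0]
        exact h1
      · refine ⟨1, by omega, fun _ => ?_⟩
        rw [e1]
        exact h1
      · refine ⟨2, by omega, fun _ => ?_⟩
        rw [e2]
        exact h1
    · exact ⟨0, by omega, fun h => absurd h hj⟩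
  choose cc hc hcτ using hcc
  -- the chosen occurrence of a clause is true
  have hch : ∀ i, ty φ i ≠ 0 → rk φ cc i = 2 → τ (i / M φ) = decide (ty φ i = 1) := by
    intro i hi hr
    have hj := cl_lt hm i
    have h1 := hcτ _ hj
    have hk : 3 * cl φ i + cc (cl φ i) = i % M φ := by
      have h2 := hc (cl φ i)
      unfold rk at hr
      have h3 : cl φ i = (i % M φ) / 3 := rfl
      have h4 : (i % M φ) % 3 < 3 := Nat.mod_lt _ (by omega)
      have h5 : cc (cl φ i) = (i % M φ) % 3 := by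
        clear h1 hj h3
        generalize cc (cl φ i) = c at *
        generalize (i % M φ) % 3 = a at *
        interval_cases a <;> interval_cases c <;> omega
      omega
    rw [hk] at h1
    unfold ty at hi ⊢
    split_ifs at hi ⊢ with k1 k2
    · rw [← k1, h1, k2]
      rfl
    · rw [← k1, h1]
      simpa using k2
    · exact absurd rfl hi
  refine ⟨FA φ τ, FB φ cc, ⟨fun u v h => fa_red h, fun u v h => fb_col h, fun u hu => fa_u hm hu,
    fun v hv => fa_v hm hv, fun u hu => fb_u hb hc hm hu, fun v hv => fb_v hb hc hm hv,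
    fun u v v' h h' => fa_u1 hm h h', fun u u' v h h' => fa_v1 hm h h',
    fun u v v' h h' => fb_u1 hc h h', fun u u' v h h' => fb_v1 hc h h', ?_⟩⟩
  rintro u v ⟨h1, h2, h3⟩ ⟨-, -, h4⟩
  rcases h4 with ⟨g1, g2, g3, g4⟩ | ⟨g1, g2, g3, g4, g5⟩ | ⟨g1, g2, g3, g4, g5⟩
  · rcases h3 with ⟨k1, k2⟩ | ⟨k1, k2, k3, k4⟩
    · obtain ⟨hh1, hh2, hh3⟩ := loc_red g4 (Or.inl (by rw [k1]))
      have ht : ty φ (u / 4) = 1 := by omega
      have := hch (u / 4) (by omega) hh1
      rw [ht] at this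
      rw [this] at k2
      simp at k2
      omega
    · obtain ⟨hh1, hh2, hh3⟩ := loc_red g4 (by
        rcases k4 with k4 | k4
        · exact Or.inr (Or.inl k4.2)
        · exact Or.inr (Or.inr ⟨k4.1, k4.2.1⟩))
      have ht : ty φ (u / 4) = 2 := by
        rcases k4 with k4 | k4 <;> omega
      have := hch (u / 4) (by omega) hh1
      rw [ht, g3, k3] at this
      simp at this
  · have := rk_lt (φ := φ) (cc := cc) (u / 4)
    rcases h3 with ⟨k1, k2⟩ | ⟨k1, k2, k3, k4⟩ <;> omega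
  · have := rk_lt (φ := φ) (cc := cc) (v / 4)
    rcases h3 with ⟨k1, k2⟩ | ⟨k1, k2, k3, k4⟩ <;> omega

/-- Correctness of the reduction. -/
theorem red_iff (hb : Bounded3 φ) (hne : φ ≠ []) : SAT3 φ ↔ COL2PM (red φ) := by
  have hm : 0 < M φ := by
    have := List.length_pos_iff.2 hne
    rw [M_eq]
    omega
  rw [col2pm_red]
  constructor
  · exact two_of_sat hb hm
  · rintro ⟨A, B, h⟩
    exact sat_of_two hb h

end

end Pool.Agent.K3h14.CM
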