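import Mathlib
import Pool.Agent.K3h14.CM.Defs
import Pool.Agent.H601R2.PP
import Pool.Agent.Y592.OP.NPMem

set_option autoImplicit false

/-!
# COL-2PM: membership in `NP`
-/

namespace Pool.Agent.K3h14.CM

open Pool.Agent.NPC
open Pool.Agent.Y592.OP (pp_nodup)

/-- The list `L` is a perfect matching. -/
def PML (I : Inst) (L : List (ℕ × ℕ)) : Prop :=
  (∀ e ∈ L, e ∈ I.E.map Prod.fst) ∧ (∀ u ∈ I.U, ∃ e ∈ L, e.1 = u) ∧
    (∀ v ∈ I.V, ∃ e ∈ L, e.2 = v) ∧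
    ∀ e ∈ L, ∀ f ∈ L, (e.1 ≠ f.1 ∨ e = f) ∧ (e.2 ≠ f.2 ∨ e = f)

/-- The certificates. -/
def Cert (x : Inst × (List (ℕ × ℕ) × List (ℕ × ℕ))) : Prop :=
  x.1.Valid ∧ PML x.1 x.2.1 ∧ PML x.1 x.2.2 ∧ (∀ e ∈ x.2.1, e ∉ x.2.2) ∧
    ∀ e ∈ x.2.1, (e, true) ∈ x.1.E

theorem pp_valid : PP Inst.Valid := by
  unfold Inst.Valid Inst.U Inst.V Inst.E
  refine PP.and (pp_nodup (by fun_prop)) (PP.and (pp_nodup (by fun_prop)) (PP.and
    (pp_nodup ?_) ?_))
  · exact NPC.Poly.map (F := fun (_ : Inst) (e : (ℕ × ℕ) × Bool) => e.1) (by fun_prop)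
      (by fun_prop)
  · refine PP.ball (l := fun I : Inst => I.2)
      (r := fun I e => e.1.1 ∈ I.1.1 ∧ e.1.2 ∈ I.1.2) (by fun_prop) ?_
    exact PP.and (PP.mem (by fun_prop) (by fun_prop)) (PP.mem (by fun_prop) (by fun_prop))

theorem pp_pml : PP (fun x : Inst × List (ℕ × ℕ) => PML x.1 x.2) := by
  unfold PML Inst.U Inst.V Inst.E
  refine PP.and ?_ (PP.and ?_ (PP.and ?_ ?_))
  · refine PP.ball (l := fun x : Inst × List (ℕ × ℕ) => x.2)
      (r := fun x e => e ∈ x.1.2.map Prod.fst) (by fun_prop) ?_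
    refine PP.mem (by fun_prop) ?_
    exact NPC.Poly.map (F := fun (_ : (Inst × List (ℕ × ℕ)) × (ℕ × ℕ)) (e : (ℕ × ℕ) × Bool) => e.1)
      (by fun_prop) (by fun_prop)
  · refine PP.ball (l := fun x : Inst × List (ℕ × ℕ) => x.1.1.1)
      (r := fun x u => ∃ e ∈ x.2, e.1 = u) (by fun_prop) ?_
    refine PP.bex (l := fun x : (Inst × List (ℕ × ℕ)) × ℕ => x.1.2)
      (r := fun x e => e.1 = x.2) (by fun_prop) ?_
    exact PP.eq (by fun_prop) (by fun_prop)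
  · refine PP.ball (l := fun x : Inst × List (ℕ × ℕ) => x.1.1.2)
      (r := fun x u => ∃ e ∈ x.2, e.2 = u) (by fun_prop) ?_
    refine PP.bex (l := fun x : (Inst × List (ℕ × ℕ)) × ℕ => x.1.2)
      (r := fun x e => e.2 = x.2) (by fun_prop) ?_
    exact PP.eq (by fun_prop) (by fun_prop)
  · refine PP.ball (l := fun x : Inst × List (ℕ × ℕ) => x.2)
      (r := fun x e => ∀ f ∈ x.2, (e.1 ≠ f.1 ∨ e = f) ∧ (e.2 ≠ f.2 ∨ e = f)) (by fun_prop) ?_
    refine PP.ball (l := fun x : (Inst × List (ℕ × ℕ)) × (ℕ × ℕ) => x.1.2)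
      (r := fun x f => (x.2.1 ≠ f.1 ∨ x.2 = f) ∧ (x.2.2 ≠ f.2 ∨ x.2 = f)) (by fun_prop) ?_
    exact PP.and (PP.or (PP.ne (by fun_prop) (by fun_prop)) (PP.eq (by fun_prop) (by fun_prop)))
      (PP.or (PP.ne (by fun_prop) (by fun_prop)) (PP.eq (by fun_prop) (by fun_prop)))

theorem pp_cert : PP Cert := by
  unfold Cert Inst.E
  refine PP.and (pp_valid.comp (by fun_prop)) (PP.and ?_ (PP.and ?_ (PP.and ?_ ?_)))
  · exact pp_pml.comp (f := fun x : Inst × (List (ℕ × ℕ) × List (ℕ × ℕ)) => (x.1, x.2.1))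
      (by fun_prop)
  · exact pp_pml.comp (f := fun x : Inst × (List (ℕ × ℕ) × List (ℕ × ℕ)) => (x.1, x.2.2))
      (by fun_prop)
  · refine PP.ball (l := fun x : Inst × (List (ℕ × ℕ) × List (ℕ × ℕ)) => x.2.1)
      (r := fun x e => e ∉ x.2.2) (by fun_prop) ?_
    exact PP.not (PP.mem (by fun_prop) (by fun_prop))
  · refine PP.ball (l := fun x : Inst × (List (ℕ × ℕ) × List (ℕ × ℕ)) => x.2.1)
      (r := fun x e => (e, true) ∈ x.1.2) (by fun_prop) ?_
    exact PP.mem (by fun_prop) (by fun_prop)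

open Classical in
/-- The list of the edges in the set `M`. -/
noncomputable def toL (I : Inst) (M : Set (ℕ × ℕ)) : List (ℕ × ℕ) :=
  (I.E.map Prod.fst).filter (fun e => decide (e ∈ M))

theorem mem_toL {I : Inst} {M : Set (ℕ × ℕ)} (hM : PerfectMatching I M) (e : ℕ × ℕ) :
    e ∈ toL I M ↔ e ∈ M := by
  classical
  unfold toL
  rw [List.mem_filter, List.mem_map]
  constructor
  · rintro ⟨-, h⟩
    simpa using h
  · intro h
    obtain ⟨c, hc⟩ := hM.1 e h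
    exact ⟨⟨(e, c), hc, rfl⟩, by simpa using h⟩

theorem pml_toL {I : Inst} {M : Set (ℕ × ℕ)} (hV : I.Valid) (hM : PerfectMatching I M) :
    PML I (toL I M) := by
  have hU : ∀ e ∈ M, e.1 ∈ I.U ∧ e.2 ∈ I.V := by
    intro e he
    obtain ⟨c, hc⟩ := hM.1 e he
    exact hV.2.2.2 _ hc
  refine ⟨?_, ?_, ?_, ?_⟩
  · intro e he
    exact (List.mem_filter.1 he).1
  · intro u hu
    obtain ⟨e, ⟨he, he'⟩, -⟩ := hM.2.1 u hu
    exact ⟨e, (mem_toL hM e).2 he, he'⟩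
  · intro v hv
    obtain ⟨e, ⟨he, he'⟩, -⟩ := hM.2.2 v hv
    exact ⟨e, (mem_toL hM e).2 he, he'⟩
  · intro e he f hf
    rw [mem_toL hM] at he hf
    constructor
    · by_cases h : e.1 = f.1
      · right
        obtain ⟨g, -, hg⟩ := hM.2.1 f.1 (hU f hf).1
        rw [hg e ⟨he, h⟩, hg f ⟨hf, rfl⟩]
      · exact Or.inl h
    · by_cases h : e.2 = f.2
      · right
        obtain ⟨g, -, hg⟩ := hM.2.2 f.2 (hU f hf).2
        rw [hg e ⟨he, h⟩, hg f ⟨hf, rfl⟩]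
      · exact Or.inl h

theorem pm_of_pml {I : Inst} {L : List (ℕ × ℕ)} (hL : PML I L) :
    PerfectMatching I {e | e ∈ L} := by
  obtain ⟨h1, h2, h3, h4⟩ := hL
  refine ⟨?_, ?_, ?_⟩
  · intro e he
    obtain ⟨x, hx, rfl⟩ := List.mem_map.1 (h1 e he)
    exact ⟨x.2, hx⟩
  · intro u hu
    obtain ⟨e, he, heu⟩ := h2 u hu
    refine ⟨e, ⟨he, heu⟩, ?_⟩
    rintro f ⟨hf, hfu⟩
    rcases (h4 f hf e he).1 with h | h
    · exact absurd (hfu.trans heu.symm) h
    · exact h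
  · intro v hv
    obtain ⟨e, he, hev⟩ := h3 v hv
    refine ⟨e, ⟨he, hev⟩, ?_⟩
    rintro f ⟨hf, hfv⟩
    rcases (h4 f hf e he).2 with h | h
    · exact absurd (hfv.trans hev.symm) h
    · exact h

theorem sz_toL (I : Inst) (M : Set (ℕ × ℕ)) : sz (toL I M) ≤ sz I * (sz I + 1) + 1 := by
  have h1 : (toL I M).length ≤ sz I := by
    have : (toL I M).length ≤ I.E.length := by
      unfold toL
      exact (List.length_filter_le _ _).trans (by simp)
    have h2 : I.E.length < sz I.2 := length_lt_sz I.E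
    have h3 : sz I = sz I.1 + sz I.2 + 1 := by
      obtain ⟨a, b⟩ := I
      exact sz_pair a b
    omega
  have h2 : ∀ e ∈ toL I M, sz e ≤ sz I := by
    intro e he
    have := (List.mem_filter.1 he).1
    obtain ⟨x, hx, rfl⟩ := List.mem_map.1 this
    have h4 : sz x < sz I.2 := sz_le_of_mem hx
    have h3 : sz I = sz I.1 + sz I.2 + 1 := by
      obtain ⟨a, b⟩ := I
      exact sz_pair a b
    have h5 : sz x = sz x.1 + sz x.2 + 1 := by
      obtain ⟨a, b⟩ := x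
      exact sz_pair a b
    omega
  have h3 := sz_le_length_mul _ _ h2
  exact h3.trans (Nat.add_le_add_right (Nat.mul_le_mul_right _ h1) 1)

/-- COL-2PM is in `NP`. -/
theorem inNPP : InNPP COL2PM := by
  obtain ⟨b, hb, hb'⟩ := pp_cert
  refine inNPP_of (β := List (ℕ × ℕ) × List (ℕ × ℕ)) hb
    (2 * (Polynomial.X * (Polynomial.X + 1) + 1) + 1) (fun I => ⟨?_, ?_⟩)
  · rintro ⟨hV, M₁, M₂, h1, h2, h3, h4⟩
    refine ⟨(toL I M₁, toL I M₂), ?_, (hb' _).2 ⟨hV, pml_toL hV h1, pml_toL hV h2, ?_, ?_⟩⟩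
    · have e1 := sz_toL I M₁
      have e2 := sz_toL I M₂
      rw [sz_pair]
      simp only [Polynomial.eval_add, Polynomial.eval_mul, Polynomial.eval_X,
        Polynomial.eval_one, Polynomial.eval_ofNat]
      omega
    · intro e he he'
      simp only at he he'
      rw [mem_toL h1] at he
      rw [mem_toL h2] at he'
      exact Set.disjoint_left.1 h3 he he'
    · intro e he
      simp only at he
      rw [mem_toL h1] at he
      exact h4 e he
  · rintro ⟨⟨L₁, L₂⟩, -, hR⟩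
    obtain ⟨hV, h1, h2, h3, h4⟩ := (hb' (I, (L₁, L₂))).1 hR
    exact ⟨hV, {e | e ∈ L₁}, {e | e ∈ L₂}, pm_of_pml h1, pm_of_pml h2,
      Set.disjoint_left.2 fun e he he' => h3 e he he', fun e he => h4 e he⟩

end Pool.Agent.K3h14.CM
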