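import Mathlib
import Pool.Agent.K3h14.CM.NPMem
import Pool.Agent.K3h14.CM.Fwd2
import Pool.Agent.H671R2.GraphEnc
import Pool.Agent.Y592.OP.PolyRed

set_option autoImplicit false

/-!
# COL-2PM: the reduction is polynomial
-/

namespace Pool.Agent.K3h14.CM

open Pool.Agent.NPC
open Pool.Agent.Y592.OP (F3 M lit M_upoly lit_poly)

section

variable {α : Type} [TEnc α] {f : α → F3} {i u v : α → ℕ}

theorem M_poly (hf : NPC.Poly f) : NPC.Poly (fun a => M (f a)) := (M_upoly hf).toPoly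

theorem N_upoly (hf : NPC.Poly f) : UPoly (fun a => N (f a)) := UPoly.mul (M_upoly hf) (M_upoly hf)

theorem N4_upoly (hf : NPC.Poly f) : UPoly (fun a => 4 * N (f a)) :=
  UPoly.mul (UPoly.const 4) (N_upoly hf)

theorem N4_poly (hf : NPC.Poly f) : NPC.Poly (fun a => 4 * N (f a)) := (N4_upoly hf).toPoly

theorem tot_upoly (hf : NPC.Poly f) : UPoly (fun a => 4 * N (f a) + 2 * (f a).length) :=
  UPoly.add (N4_upoly hf) (UPoly.mul (UPoly.const 2) (UPoly.length hf))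

theorem nxt_poly {m : α → ℕ} (hm : NPC.Poly m) (hi : NPC.Poly i) :
    NPC.Poly (fun a => nxt (m a) (i a)) := by
  unfold nxt
  exact NPC.Poly.ite (NPC.Poly.decide_eq (NPC.Poly.mod (NPC.Poly.succ hi) hm) (NPC.Poly.const 0))
    (NPC.Poly.sub (NPC.Poly.succ hi) hm) (NPC.Poly.succ hi)

theorem ty_poly (hf : NPC.Poly f) (hi : NPC.Poly i) : NPC.Poly (fun a => ty (f a) (i a)) := by
  unfold ty
  have hl := lit_poly hf (NPC.Poly.mod hi (M_poly hf))
  exact NPC.Poly.ite (NPC.Poly.decide_eq (NPC.Poly.snd hl) (NPC.Poly.div hi (M_poly hf)))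
    (NPC.Poly.ite (NPC.Poly.decide_bool (NPC.Poly.fst hl)) (NPC.Poly.const 1) (NPC.Poly.const 2))
    (NPC.Poly.const 0)

theorem cl_poly (hf : NPC.Poly f) (hi : NPC.Poly i) : NPC.Poly (fun a => cl (f a) (i a)) := by
  unfold cl
  exact NPC.Poly.div (NPC.Poly.mod hi (M_poly hf)) (NPC.Poly.const 3)

theorem div4 (hi : NPC.Poly i) : NPC.Poly (fun a => i a / 4) := NPC.Poly.div hi (NPC.Poly.const 4)

theorem pp_mod4 (hi : NPC.Poly i) (c : ℕ) : PP (fun a => i a % 4 = c) :=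
  PP.eq (NPC.Poly.mod hi (NPC.Poly.const 4)) (NPC.Poly.const c)

theorem pp_inU (hf : NPC.Poly f) (hi : NPC.Poly i) : PP (fun a => InU (f a) (i a)) := by
  unfold InU
  exact PP.and (PP.lt hi (tot_upoly hf).toPoly) (PP.not (PP.and (PP.lt hi (N4_poly hf))
    (PP.and (pp_mod4 hi 3) (PP.ne (ty_poly hf (div4 hi)) (NPC.Poly.const 0)))))

theorem pp_red (hf : NPC.Poly f) (hu : NPC.Poly u) (hv : NPC.Poly v) :
    PP (fun a => Red (f a) (u a) (v a)) := by
  unfold Red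
  have h4 : NPC.Poly (fun _ : α => 4) := NPC.Poly.const 4
  refine PP.or (PP.and (PP.lt hu (N4_poly hf)) (PP.and (PP.lt hv (N4_poly hf)) (PP.or
    (PP.and (PP.eq (div4 hu) (div4 hv)) (PP.or (PP.eq (NPC.Poly.mod hu h4) (NPC.Poly.mod hv h4))
      (PP.and (pp_mod4 hu 1) (pp_mod4 hv 0))))
    (PP.and (pp_mod4 hu 0) (PP.and (pp_mod4 hv 1)
      (PP.eq (div4 hu) (nxt_poly (M_poly hf) (div4 hv))))))))
    (PP.and (PP.le (N4_poly hf) hu) (PP.eq hu hv))

theorem pp_blue (hf : NPC.Poly f) (hu : NPC.Poly u) (hv : NPC.Poly v) :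
    PP (fun a => Blue (f a) (u a) (v a)) := by
  unfold Blue
  have htu := ty_poly hf (div4 hu)
  have htv := ty_poly hf (div4 hv)
  have hN := N4_poly hf
  refine PP.or (PP.and (PP.lt hu hN) (PP.and (PP.lt hv hN) (PP.and (PP.eq (div4 hu) (div4 hv))
    (PP.or (PP.and (pp_mod4 hu 2) (pp_mod4 hv 1)) (PP.or
      (PP.and (PP.eq htu (NPC.Poly.const 2)) (PP.and (pp_mod4 hu 0) (pp_mod4 hv 2)))
      (PP.or (PP.and (PP.ne htu (NPC.Poly.const 2)) (PP.and (pp_mod4 hu 1) (pp_mod4 hv 2)))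
        (PP.or (PP.and (pp_mod4 hu 0) (pp_mod4 hv 3)) (PP.and (pp_mod4 hu 3) (pp_mod4 hv 0)))))))))
    (PP.or (PP.and (PP.lt hu hN) (PP.and (PP.le hN hv) (PP.and (PP.eq (cl_poly hf (div4 hu))
      (NPC.Poly.div (NPC.Poly.sub hv hN) (NPC.Poly.const 2)))
      (PP.or (PP.and (PP.eq htu (NPC.Poly.const 1)) (pp_mod4 hu 0))
        (PP.and (PP.eq htu (NPC.Poly.const 2)) (pp_mod4 hu 1))))))
      (PP.and (PP.le hN hu) (PP.and (PP.lt hv hN) (PP.and (PP.eq (cl_poly hf (div4 hv))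
        (NPC.Poly.div (NPC.Poly.sub hu hN) (NPC.Poly.const 2)))
        (PP.and (PP.ne htv (NPC.Poly.const 0)) (pp_mod4 hv 0))))))

theorem vert_poly (hf : NPC.Poly f) : NPC.Poly (fun a => vert (f a)) := by
  unfold vert
  exact PP.filter (r := fun a (n : ℕ) => InU (f a) n) (tot_upoly hf).range
    (pp_inU (hf.comp (NPC.Poly.fst NPC.Poly.id)) (NPC.Poly.snd NPC.Poly.id))

theorem edges_poly (hf : NPC.Poly f) : NPC.Poly (fun a => edges (f a)) := by
  unfold edges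
  have hv := vert_poly hf
  have hp : NPC.Poly (fun a => vert (f a) ×ˢ vert (f a)) := R671.poly_product hv hv
  have hf' : NPC.Poly (fun x : α × (ℕ × ℕ) => f x.1) := hf.comp (NPC.Poly.fst NPC.Poly.id)
  have hu' : NPC.Poly (fun x : α × (ℕ × ℕ) => x.2.1) := NPC.Poly.fst (NPC.Poly.snd NPC.Poly.id)
  have hv' : NPC.Poly (fun x : α × (ℕ × ℕ) => x.2.2) := NPC.Poly.snd (NPC.Poly.snd NPC.Poly.id)
  refine NPC.Poly.append ?_ ?_
  · exact NPC.Poly.map (F := fun (_ : α) (p : ℕ × ℕ) => (p, true))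
      (PP.filter (r := fun a (p : ℕ × ℕ) => Red (f a) p.1 p.2) hp (pp_red hf' hu' hv'))
      (NPC.Poly.pair (NPC.Poly.snd NPC.Poly.id) (NPC.Poly.const true))
  · exact NPC.Poly.map (F := fun (_ : α) (p : ℕ × ℕ) => (p, false))
      (PP.filter (r := fun a (p : ℕ × ℕ) => Blue (f a) p.1 p.2) hp (pp_blue hf' hu' hv'))
      (NPC.Poly.pair (NPC.Poly.snd NPC.Poly.id) (NPC.Poly.const false))

end

theorem red_poly : NPC.Poly red := by
  unfold red
  have hf : NPC.Poly (fun φ : F3 => φ) := NPC.Poly.id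
  exact NPC.Poly.pair (NPC.Poly.pair (vert_poly hf) (vert_poly hf)) (edges_poly hf)

/-- COL-2PM is `NP`-hard. -/
theorem hardI : HardI COL2PM :=
  ((hardPr_SAT3b.trans (Pr' := fun _ => True) (Q := COL2PM) red_poly (fun _ _ => trivial)
    (fun _ h => red_iff h.2.1 h.2.2))).toHardI

/-- COL-2PM is `NP`-complete. -/
theorem npComplete : InNPP COL2PM ∧ NPHardP COL2PM := ⟨inNPP, hardI.toNPHardP⟩

end Pool.Agent.K3h14.CM
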